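import Pool.Agent.Helper29.LR.Reg

/-! Perfect locally regular `p`-groups with a solvable verbal subgroup `⟨x^(p^k)⟩`. -/

set_option autoImplicit false

namespace Pool.Agent.Helper29.LR

open Subgroup
open scoped commutatorElement

universe u

section
variable {p q : ℕ} [Fact p.Prime] {G : Type u} [Group G]

omit [Fact p.Prime] in
/-- the class is closed under quotients -/
theorem Cls.quot (h : Cls p q G) (N : Subgroup G) [N.Normal] : Cls p q (G ⧸ N) := by
  have hcl : ∀ a b : G, (closure ({a, b} : Set G)).map (QuotientGroup.mk' N) =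
      closure ({(a : G ⧸ N), (b : G ⧸ N)} : Set (G ⧸ N)) := by
    intro a b
    rw [MonoidHom.map_closure]
    congr 1
    ext z
    simp only [Set.mem_image, Set.mem_insert_iff, Set.mem_singleton_iff, exists_eq_or_imp,
      exists_eq_left, QuotientGroup.mk'_apply]
    constructor
    · rintro (h | h)
      · exact Or.inl h.symm
      · exact Or.inr h.symm
    · rintro (h | h)
      · exact Or.inl h.symm
      · exact Or.inr h.symm
  refine ⟨h.pg.to_quotient N, ?_, ?_⟩
  · intro x y
    obtain ⟨a, rfl⟩ := QuotientGroup.mk_surjective x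
    obtain ⟨b, rfl⟩ := QuotientGroup.mk_surjective y
    have := h.fin a b
    rw [← hcl]
    exact Finite.of_surjective _ ((QuotientGroup.mk' N).subgroupMap_surjective _)
  · intro x y
    obtain ⟨a, rfl⟩ := QuotientGroup.mk_surjective x
    obtain ⟨b, rfl⟩ := QuotientGroup.mk_surjective y
    obtain ⟨l, hl, hle⟩ := h.reg a b
    refine ⟨l.map (QuotientGroup.mk' N), ?_, ?_⟩
    · intro d hd
      obtain ⟨d0, hd0, rfl⟩ := List.mem_map.1 hd
      rw [← hcl, ← map_commutator]
      exact mem_map_of_mem _ (hl d0 hd0)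
    · have e := congrArg (QuotientGroup.mk' N) hle
      rw [map_mul, map_mul, map_pow, map_pow, map_pow, map_mul, map_list_prod, List.map_map] at e
      rw [List.map_map]
      exact e

/-- the elements of order dividing `p` -/
def Om1 (h : Cls p q G) : Subgroup G where
  carrier := {g | g ^ q = 1}
  mul_mem' := fun {a b} ha hb => hall_b h a b ha hb
  one_mem' := one_pow _
  inv_mem' := fun {a} ha => by
    have ha' : a ^ q = 1 := ha
    show a⁻¹ ^ q = 1
    rw [inv_pow, ha', inv_one]

theorem mem_Om1 (h : Cls p q G) (g : G) : g ∈ Om1 h ↔ g ^ q = 1 := Iff.rfl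

theorem Om1_normal (h : Cls p q G) : (Om1 h).Normal := ⟨fun n hn g => by
  rw [mem_Om1] at hn ⊢
  rw [conj_pow, hn]; simp⟩

/-- Hall: `x^(p^k) = y^(p^k)` if and only if `(x⁻¹ y)^(p^k) = 1` -/
theorem hall_pow (k : ℕ) : ∀ {G : Type u} [Group G] (_ : Cls p q G) (x y : G),
    x ^ q ^ k = y ^ q ^ k ↔ (x⁻¹ * y) ^ q ^ k = 1 := by
  induction k with
  | zero =>
    intro G _ h x y
    simp only [pow_zero, pow_one]
    rw [inv_mul_eq_one]
  | succ k ih =>
    intro G _ h x y
    have := Om1_normal h
    have h1 := ih (h.quot (Om1 h)) (x : G ⧸ Om1 h) (y : G ⧸ Om1 h)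
    have e1 : ((x : G ⧸ Om1 h) ^ q ^ k = (y : G ⧸ Om1 h) ^ q ^ k) ↔
        ((x ^ q ^ k)⁻¹ * y ^ q ^ k) ^ q = 1 := by
      rw [← QuotientGroup.mk_pow, ← QuotientGroup.mk_pow, QuotientGroup.eq, mem_Om1]
    have e2 : (((x : G ⧸ Om1 h)⁻¹ * (y : G ⧸ Om1 h)) ^ q ^ k = 1) ↔
        ((x⁻¹ * y) ^ q ^ k) ^ q = 1 := by
      rw [← QuotientGroup.mk_inv, ← QuotientGroup.mk_mul, ← QuotientGroup.mk_pow,
        QuotientGroup.eq_one_iff, mem_Om1]
    have e3 : ((x ^ q ^ k)⁻¹ * y ^ q ^ k) ^ q = 1 ↔ (x ^ q ^ k) ^ q = (y ^ q ^ k) ^ q :=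
      ⟨hall_c h _ _, hall_d h _ _⟩
    rw [e1, e2, e3] at h1
    rw [pow_succ, pow_mul, pow_mul, pow_mul]
    exact h1

/-- the elements of order dividing `p^k` -/
def Om (h : Cls p q G) (k : ℕ) : Subgroup G where
  carrier := {g | g ^ q ^ k = 1}
  mul_mem' := fun {a b} ha hb => by
    have ha' : a ^ q ^ k = 1 := ha
    have hb' : b ^ q ^ k = 1 := hb
    have e := (hall_pow k h a⁻¹ b).1 (by rw [inv_pow, ha', hb', inv_one])
    rw [inv_inv] at e
    exact e
  one_mem' := one_pow _
  inv_mem' := fun {a} ha => by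
    have ha' : a ^ q ^ k = 1 := ha
    show a⁻¹ ^ q ^ k = 1
    rw [inv_pow, ha', inv_one]

theorem mem_Om (h : Cls p q G) (k : ℕ) (g : G) : g ∈ Om h k ↔ g ^ q ^ k = 1 := Iff.rfl

theorem comm_left (h : Cls p q G) (k : ℕ) (x w : G) :
    Commute (x ^ q ^ k) w ↔ ⁅x, w⁆ ^ q ^ k = 1 := by
  have e2 : ⁅x, w⁆ = (x⁻¹)⁻¹ * (w * x⁻¹ * w⁻¹) := by
    simp only [commutatorElement_def]; group
  rw [e2, ← hall_pow k h, conj_pow, inv_pow]
  constructor
  · intro hc
    have := hc.inv_left.eq
    rw [← this]
    group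
  · intro hc
    have h1 : (x ^ q ^ k)⁻¹ * w = w * (x ^ q ^ k)⁻¹ := by
      conv_lhs => rw [hc]
      group
    have h2 : Commute (x ^ q ^ k)⁻¹ w := h1
    exact (Commute.inv_left_iff).1 h2

theorem comm_right (h : Cls p q G) (k : ℕ) (x w : G) :
    Commute x (w ^ q ^ k) ↔ ⁅x, w⁆ ^ q ^ k = 1 := by
  rw [commute_iff_eq, ← eq_comm, ← commute_iff_eq, comm_left h k w x]
  have e : ⁅w, x⁆ = ⁅x, w⁆⁻¹ := (commutatorElement_inv x w).symm
  rw [e, inv_pow, inv_eq_one]

/-- main theorem: a perfect group of the class such that, for every `k`, the subgroup generated by the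
`q^k`-th powers is the whole group or solvable, has finite exponent -/
theorem main (h : Cls p q G) (hq : ∃ m, 1 ≤ m ∧ q = p ^ m) (hperf : commutator G = ⊤)
    (hsol : ∀ k : ℕ, closure {g : G | ∃ x : G, g = x ^ q ^ k} ≠ ⊤ →
      Group.IsSolvable (closure {g : G | ∃ x : G, g = x ^ q ^ k})) :
    ∃ n : ℕ, ∀ g : G, g ^ q ^ n = 1 := by
  have hord : ∀ x : G, ∃ k : ℕ, x ^ q ^ k = 1 := by
    intro x
    obtain ⟨k, hk⟩ := h.pg x
    obtain ⟨m, hm, rfl⟩ := hq
    refine ⟨k, ?_⟩
    have hd : p ^ k ∣ (p ^ m) ^ k := by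
      rw [← pow_mul]
      exact pow_dvd_pow p (Nat.le_mul_of_pos_left k hm)
    obtain ⟨c, hc⟩ := hd
    rw [hc, pow_mul, hk, one_pow]
  by_cases hA : ∀ k : ℕ, closure {g : G | ∃ x : G, g = x ^ q ^ k} = ⊤
  · -- every element is central
    refine ⟨0, fun g => ?_⟩
    have hcen : ∀ x : G, x ∈ center G := by
      intro x
      obtain ⟨k, hk⟩ := hord x
      rw [mem_center_iff]
      have hle : closure {g : G | ∃ x : G, g = x ^ q ^ k} ≤ centralizer {x} := by
        rw [closure_le]
        rintro g ⟨y, rfl⟩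
        rw [SetLike.mem_coe, mem_centralizer_singleton_iff]
        have h1 : Commute (x ^ q ^ k) y := by rw [hk]; exact Commute.one_left y
        have h2 := (comm_right h k x y).2 ((comm_left h k x y).1 h1)
        exact h2.eq.symm
      rw [hA k] at hle
      intro g
      have := hle (mem_top g)
      rw [mem_centralizer_singleton_iff] at this
      exact this
    have hbot : commutator G = ⊥ := by
      rw [_root_.commutator_def, commutator_eq_bot_iff_le_centralizer]
      intro x _
      rw [mem_centralizer_iff]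
      intro y _
      exact ((mem_center_iff.1 (hcen x)) y)
    have : g ∈ (⊥ : Subgroup G) := by rw [← hbot, hperf]; exact mem_top g
    rw [mem_bot.1 this, one_pow]
  · push Not at hA
    obtain ⟨k, hk⟩ := hA
    set M := closure {g : G | ∃ x : G, g = x ^ q ^ k} with hM
    have hMn : M.Normal := by
      refine ⟨fun n hn g => ?_⟩
      have hle : M ≤ M.comap (MulAut.conj g).toMonoidHom := by
        rw [hM, closure_le]
        rintro z ⟨x, rfl⟩
        rw [SetLike.mem_coe, mem_comap]
        refine subset_closure ⟨g * x * g⁻¹, ?_⟩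
        simp only [MulEquiv.toMonoidHom_eq_coe, MonoidHom.coe_coe, MulAut.conj_apply, conj_pow]
      exact hle hn
    -- the derived series in `G`
    let D : ℕ → Subgroup G := fun j => Nat.rec M (fun _ N => ⁅N, N⁆) j
    have hD0 : D 0 = M := rfl
    have hDs : ∀ j, D (j + 1) = ⁅D j, D j⁆ := fun j => rfl
    have hDn : ∀ j, (D j).Normal := by
      intro j
      induction j with
      | zero => exact hMn
      | succ j ih => rw [hDs]; exact @commutator_normal _ _ (D j) (D j) ih ih
    have hDm : ∀ j, D j = (derivedSeries M j).map M.subtype := by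
      intro j
      induction j with
      | zero => rw [hD0, derivedSeries_zero, ← MonoidHom.range_eq_map, range_subtype]
      | succ j ih => rw [hDs, ih, derivedSeries_succ, map_commutator]
    clear_value D
    obtain ⟨s, hs⟩ := (Group.isSolvable_def M).1 (hsol k hk)
    have hDbot : D s = ⊥ := by rw [hDm, hs, Subgroup.map_bot]
    have key : ∀ j, ∃ e : ℕ, ∀ g : G, g ^ q ^ e ∈ D j := by
      intro j
      induction j with
      | zero =>
        refine ⟨k, fun g => ?_⟩
        rw [hD0]
        exact Subgroup.subset_closure ⟨g, rfl⟩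
      | succ j ih =>
        obtain ⟨e, he⟩ := ih
        refine ⟨e + e, fun g => ?_⟩
        have hDj : (D (j + 1)).Normal := hDn (j + 1)
        have hcl := h.quot (D (j + 1))
        have hcom : ∀ x y : G ⧸ D (j + 1), ⁅x, y⁆ ∈ Om hcl (e + e) := by
          intro x y
          obtain ⟨a, rfl⟩ := QuotientGroup.mk_surjective x
          obtain ⟨b, rfl⟩ := QuotientGroup.mk_surjective y
          have h1 : Commute ((a : G ⧸ D (j + 1)) ^ q ^ e) ((b : G ⧸ D (j + 1)) ^ q ^ e) := by
            rw [← commutatorElement_eq_one_iff_commute]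
            have h2 : ⁅a ^ q ^ e, b ^ q ^ e⁆ ∈ D (j + 1) := by
              rw [hDs]
              exact commutator_mem_commutator (he a) (he b)
            have h3 := (QuotientGroup.eq_one_iff (N := D (j + 1)) ⁅a ^ q ^ e, b ^ q ^ e⁆).2 h2
            rw [← h3]
            rfl
          have h4 : Commute (a : G ⧸ D (j + 1)) (((b : G ⧸ D (j + 1)) ^ q ^ e) ^ q ^ e) :=
            (comm_right hcl e _ _).2 ((comm_left hcl e _ _).1 h1)
          rw [mem_Om, ← comm_right hcl, pow_add, pow_mul]
          exact h4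
        have hle : commutator (G ⧸ D (j + 1)) ≤ Om hcl (e + e) := by
          rw [_root_.commutator_def, commutator_le]
          intro x _ y _
          exact hcom x y
        have htop : commutator (G ⧸ D (j + 1)) = ⊤ := by
          have h5 : (commutator G).map (QuotientGroup.mk' (D (j + 1))) =
              commutator (G ⧸ D (j + 1)) := by
            rw [_root_.commutator_def, _root_.commutator_def, map_commutator, ← MonoidHom.range_eq_map,
              QuotientGroup.range_mk']
          rw [← h5, hperf, ← MonoidHom.range_eq_map, QuotientGroup.range_mk']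
        have h6 : (g : G ⧸ D (j + 1)) ∈ Om hcl (e + e) := hle (by rw [htop]; exact mem_top _)
        rw [mem_Om, ← QuotientGroup.mk_pow, QuotientGroup.eq_one_iff] at h6
        exact h6
    obtain ⟨e, he⟩ := key s
    refine ⟨e, fun g => ?_⟩
    have := he g
    rw [hDbot] at this
    exact mem_bot.1 this

end

end Pool.Agent.Helper29.LR
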