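import Mathlib

/-! Hall's theory for groups in which two elements generate a finite `p`-group and
`(a b)^q = a^q b^q d_1^q .. d_r^q` with `d_i` in the derived subgroup of `⟨a, b⟩` (`q = p`: locally
regular `p`-groups). -/

set_option autoImplicit false

namespace Pool.Agent.Helper29.LR

open Subgroup
open scoped commutatorElement

universe u

/-- the class of groups: two elements generate a finite `p`-group, and Hall's identity holds -/
structure Cls (p q : ℕ) (G : Type u) [Group G] : Prop where
  pg : IsPGroup p G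
  fin : ∀ x y : G, Finite (closure ({x, y} : Set G))
  reg : ∀ a b : G, ∃ l : List G, (∀ d ∈ l, d ∈ ⁅closure ({a, b} : Set G), closure ({a, b} : Set G)⁆) ∧
    (a * b) ^ q = a ^ q * b ^ q * (l.map (fun d => d ^ q)).prod

section comm
variable {G : Type u} [Group G]

/-- commutators of generators in a subgroup `E` normalised by `K` -/
theorem comm_gen (E K : Subgroup G) (S : Set G) (hS : closure S = K)
    (hE : ∀ k ∈ K, ∀ e ∈ E, k * e * k⁻¹ ∈ E) (hc : ∀ s ∈ S, ∀ t ∈ S, ⁅s, t⁆ ∈ E) :
    ⁅K, K⁆ ≤ E := by
  have step : ∀ h : G, (∀ s ∈ S, ⁅s, h⁆ ∈ E) → ∀ g ∈ K, ⁅g, h⁆ ∈ E := by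
    intro h hs g hg
    rw [← hS] at hg
    induction hg using closure_induction with
    | mem x hx => exact hs x hx
    | one => rw [commutatorElement_one_left]; exact E.one_mem
    | mul a b ha hb iha ihb =>
      have e : ⁅a * b, h⁆ = a * ⁅b, h⁆ * a⁻¹ * ⁅a, h⁆ := by
        simp only [commutatorElement_def]; group
      rw [e]
      rw [hS] at ha
      exact E.mul_mem (hE a ha _ ihb) iha
    | inv a ha iha =>
      have e : ⁅a⁻¹, h⁆ = a⁻¹ * ⁅a, h⁆⁻¹ * a⁻¹⁻¹ := by
        simp only [commutatorElement_def]; group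
      rw [e]
      rw [hS] at ha
      exact hE _ (K.inv_mem ha) _ (E.inv_mem iha)
  rw [commutator_le]
  intro g1 h1 g2 h2
  refine step g2 ?_ g1 h1
  intro s hs
  have : ⁅g2, s⁆ ∈ E := step s (fun t ht => hc t ht s hs) g2 h2
  rw [← commutatorElement_inv]
  exact E.inv_mem this

/-- if `K` is nilpotent and generated by `x` and its derived subgroup then the latter is trivial -/
theorem cyc_case (K : Subgroup G) (x : G) (hx : x ∈ K) (hn : Group.IsNilpotent K)
    (hK : K ≤ closure {x} ⊔ ⁅K, K⁆) : ⁅K, K⁆ = ⊥ := by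
  have hDK : ⁅K, K⁆ ≤ K := commutator_le_self K
  have hnorm : K ≤ normalizer (K.lowerCentralSeries 2 : Set G) :=
    self_le_normalizer_lowerCentralSeries K 2
  have hEn : ∀ k ∈ K, ∀ e ∈ K.lowerCentralSeries 2, k * e * k⁻¹ ∈ K.lowerCentralSeries 2 := by
    intro k hk e he
    exact (mem_normalizer_iff.1 (hnorm hk) e).1 he
  have hclo : closure ({x} ∪ ((⁅K, K⁆ : Subgroup G) : Set G)) = K := by
    rw [Subgroup.closure_union, closure_eq]
    apply le_antisymm
    · rw [sup_le_iff]
      exact ⟨(closure_le K).2 (by simpa using hx), hDK⟩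
    · exact hK
  have e2 : K.lowerCentralSeries 2 = ⁅⁅K, K⁆, K⁆ := rfl
  have h3 : ⁅K, K⁆ ≤ K.lowerCentralSeries 2 := by
    refine comm_gen _ K _ hclo hEn ?_
    have hD : ∀ d ∈ (⁅K, K⁆ : Subgroup G), ∀ k ∈ K, ⁅d, k⁆ ∈ K.lowerCentralSeries 2 := by
      intro d hd k hk
      rw [e2]
      exact commutator_mem_commutator hd hk
    rintro s hs t ht
    rcases hs with hs | hs
    · rcases ht with ht | ht
      · rw [Set.mem_singleton_iff] at hs ht
        rw [hs, ht, commutatorElement_self]
        exact one_mem _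
      · rw [← commutatorElement_inv]
        refine inv_mem (hD t ht s ?_)
        rw [Set.mem_singleton_iff.1 hs]
        exact hx
    · refine hD s hs t ?_
      rcases ht with ht | ht
      · rw [Set.mem_singleton_iff.1 ht]
        exact hx
      · exact hDK ht
  have h4 : ∀ n, ⁅K, K⁆ ≤ K.lowerCentralSeries (n + 1) := by
    intro n
    induction n with
    | zero => exact le_rfl
    | succ n ih =>
      rw [Subgroup.lowerCentralSeries_succ]
      refine h3.trans ?_
      rw [e2]
      exact commutator_mono ih le_rfl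
  obtain ⟨n, hn⟩ := (isNilpotent_iff_lowerCentralSeries K).1 hn
  have h5 : ⁅K, K⁆ ≤ K.lowerCentralSeries n :=
    (h4 n).trans (Subgroup.lowerCentralSeries_antitone K (Nat.le_succ n))
  rw [hn] at h5
  exact le_bot_iff.1 h5

end comm

section base
variable {p q : ℕ} [Fact p.Prime] {G : Type u} [Group G]

theorem prod_one (l : List G) (q : ℕ) (h : ∀ d ∈ l, d ^ q = 1) :
    (l.map (fun d => d ^ q)).prod = 1 := by
  apply List.prod_eq_one
  intro x hx
  obtain ⟨d, hd, rfl⟩ := List.mem_map.1 hx
  exact h d hd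

omit [Fact p.Prime] in
/-- the exponent of the derived subgroup of `K = ⟨x, y⟩`, if the commutator of `x` and `y` has order
dividing `q`, and products of elements of order dividing `q` of the derived subgroup are such -/
theorem der_exp (K : Subgroup G) (x y : G) (hK : closure ({x, y} : Set G) = K)
    (hD : ∀ a ∈ ⁅K, K⁆, ∀ b ∈ ⁅K, K⁆, a ^ q = 1 → b ^ q = 1 → (a * b) ^ q = 1)
    (hc : ⁅x, y⁆ ^ q = 1) : ∀ d ∈ ⁅K, K⁆, d ^ q = 1 := by
  have hDK : ⁅K, K⁆ ≤ K := commutator_le_self K
  have hx : x ∈ K := by rw [← hK]; exact subset_closure (by simp)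
  have hy : y ∈ K := by rw [← hK]; exact subset_closure (by simp)
  have hnorm : K ≤ normalizer (K.lowerCentralSeries 1 : Set G) :=
    self_le_normalizer_lowerCentralSeries K 1
  let E : Subgroup G :=
    { carrier := {d | d ∈ ⁅K, K⁆ ∧ d ^ q = 1}
      mul_mem' := by
        rintro a b ⟨ha1, ha2⟩ ⟨hb1, hb2⟩
        exact ⟨mul_mem ha1 hb1, hD a ha1 b hb1 ha2 hb2⟩
      one_mem' := ⟨one_mem _, one_pow _⟩
      inv_mem' := by
        rintro a ⟨ha1, ha2⟩
        exact ⟨inv_mem ha1, by rw [inv_pow, ha2, inv_one]⟩ }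
  have hE : ⁅K, K⁆ ≤ E := by
    refine comm_gen E K _ hK ?_ ?_
    · rintro k hk e ⟨he1, he2⟩
      refine ⟨(mem_normalizer_iff.1 (hnorm hk) e).1 he1, ?_⟩
      rw [conj_pow, he2]
      simp
    · have hxy : ⁅x, y⁆ ∈ E := ⟨commutator_mem_commutator hx hy, hc⟩
      rintro s hs t ht
      rcases hs with rfl | rfl
      · rcases ht with rfl | rfl
        · rw [commutatorElement_self]; exact one_mem _
        · exact hxy
      · rcases ht with rfl | rfl
        · rw [← commutatorElement_inv]; exact inv_mem hxy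
        · rw [commutatorElement_self]; exact one_mem _
  exact fun d hd => (hE hd).2

/-- Hall: elements of order dividing `q`, and elements with the same `q`-th power -/
theorem hall_aux (h : Cls p q G) : ∀ n : ℕ, ∀ x y : G, Nat.card (closure ({x, y} : Set G)) ≤ n →
    (x ^ q = 1 → y ^ q = 1 → (x * y) ^ q = 1) ∧ (x ^ q = y ^ q → (x⁻¹ * y) ^ q = 1) := by
  intro n
  induction n with
  | zero =>
    intro x y hc
    have h0 := h.fin x y
    have := Nat.card_pos (α := closure ({x, y} : Set G))
    omega
  | succ n ih =>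
    intro x y hc
    have := h.fin x y
    set K := closure ({x, y} : Set G) with hK
    have hx : x ∈ K := subset_closure (by simp)
    have hy : y ∈ K := subset_closure (by simp)
    have hDK : ⁅K, K⁆ ≤ K := commutator_le_self K
    -- the induction hypothesis for proper subgroups
    have hsub : ∀ L : Subgroup G, L ≤ K → ¬ K ≤ L → ∀ a ∈ L, ∀ b ∈ L,
        (a ^ q = 1 → b ^ q = 1 → (a * b) ^ q = 1) ∧ (a ^ q = b ^ q → (a⁻¹ * b) ^ q = 1) := by
      intro L hL hne a ha b hb
      apply ih
      have h1 : closure ({a, b} : Set G) ≤ L := (closure_le L).2 (by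
        intro z hz
        rcases hz with rfl | rfl
        · exact ha
        · exact hb)
      have h2 : closure ({a, b} : Set G) < K := lt_of_le_of_ne (h1.trans hL) (fun e => hne (e ▸ h1))
      have h3 : Nat.card (closure ({a, b} : Set G)) < Nat.card K := by
        have : ((closure ({a, b} : Set G) : Subgroup G) : Set G) ⊂ (K : Set G) := h2
        have hf : (K : Set G).Finite := Set.toFinite _
        exact Set.ncard_lt_ncard this hf
      omega
    by_cases hcomm : ⁅K, K⁆ = ⊥
    · -- commuting elements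
      have hxy : ⁅x, y⁆ = 1 := by
        have : ⁅x, y⁆ ∈ ⁅K, K⁆ := commutator_mem_commutator hx hy
        rw [hcomm] at this
        exact mem_bot.1 this
      have hxy' : Commute x y := commutatorElement_eq_one_iff_commute.1 hxy
      constructor
      · intro h1 h2
        rw [hxy'.mul_pow, h1, h2, one_mul]
      · intro h1
        rw [hxy'.inv_left.mul_pow, inv_pow, h1, inv_mul_cancel]
    · have hnil : Group.IsNilpotent K := (h.pg.to_subgroup K).isNilpotent
      set L := closure {x} ⊔ ⁅K, K⁆ with hL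
      have hLK : L ≤ K := by
        rw [hL, sup_le_iff]
        exact ⟨(closure_le K).2 (by simpa using hx), hDK⟩
      have hLne : ¬ K ≤ L := fun e => hcomm (cyc_case K x hx hnil e)
      have hQ := hsub L hLK hLne
      have hxL : x ∈ L := (le_sup_left : closure {x} ≤ L) (subset_closure rfl)
      have hDL : ⁅K, K⁆ ≤ L := le_sup_right
      have hcD : ⁅x, y⁆ ∈ ⁅K, K⁆ := commutator_mem_commutator hx hy
      have hcL : ⁅x, y⁆ ∈ L := hDL hcD
      have e1 : y * x⁻¹ * y⁻¹ = x⁻¹ * ⁅x, y⁆ := by
        simp only [commutatorElement_def]; group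
      have hwL : y * x⁻¹ * y⁻¹ ∈ L := by
        rw [e1]
        exact mul_mem (inv_mem hxL) hcL
      have hDprod : ∀ a ∈ ⁅K, K⁆, ∀ b ∈ ⁅K, K⁆, a ^ q = 1 → b ^ q = 1 → (a * b) ^ q = 1 :=
        fun a ha b hb => (hQ a (hDL ha) b (hDL hb)).1
      constructor
      · intro h1 h2
        have hc1 : ⁅x, y⁆ ^ q = 1 := by
          have e2 : ⁅x, y⁆ = x * (y * x⁻¹ * y⁻¹) := by
            simp only [commutatorElement_def]; group
          rw [e2]
          refine (hQ x hxL _ hwL).1 h1 ?_
          rw [conj_pow, inv_pow, h1]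
          simp
        have hexp := der_exp (q := q) K x y hK.symm hDprod hc1
        obtain ⟨l, hl, hle⟩ := h.reg x y
        rw [hle, h1, h2, prod_one l q (fun d hd => hexp d (hl d hd))]
        simp
      · intro h1
        have hc1 : ⁅x, y⁆ ^ q = 1 := by
          have e2 : ⁅x, y⁆ = (x⁻¹)⁻¹ * (y * x⁻¹ * y⁻¹) := by
            simp only [commutatorElement_def]; group
          rw [e2]
          refine (hQ x⁻¹ (inv_mem hxL) _ hwL).2 ?_
          rw [conj_pow, inv_pow, h1]
          group
        have hexp := der_exp (q := q) K x y hK.symm hDprod hc1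
        obtain ⟨l, hl, hle⟩ := h.reg x⁻¹ y
        have hKK : closure ({x⁻¹, y} : Set G) = K := by
          apply le_antisymm
          · refine (closure_le K).2 ?_
            rintro z (rfl | rfl)
            · exact inv_mem hx
            · exact hy
          · refine (closure_le _).2 ?_
            rintro z (rfl | rfl)
            · have : z⁻¹ ∈ closure ({z⁻¹, y} : Set G) := subset_closure (by simp)
              simpa using inv_mem this
            · exact subset_closure (by simp)
        rw [hKK] at hl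
        rw [hle, inv_pow, h1, prod_one l q (fun d hd => hexp d (hl d hd))]
        simp

theorem hall_b (h : Cls p q G) (x y : G) (hx : x ^ q = 1) (hy : y ^ q = 1) : (x * y) ^ q = 1 :=
  (hall_aux h _ x y le_rfl).1 hx hy

theorem hall_d (h : Cls p q G) (x y : G) (hxy : x ^ q = y ^ q) : (x⁻¹ * y) ^ q = 1 :=
  (hall_aux h _ x y le_rfl).2 hxy

theorem hall_c (h : Cls p q G) (x y : G) (hxy : (x⁻¹ * y) ^ q = 1) : x ^ q = y ^ q := by
  set z := x⁻¹ * y with hz
  have hyz : y = x * z := by rw [hz]; group
  set K := closure ({x, z} : Set G) with hK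
  have hc1 : ⁅x, z⁆ ^ q = 1 := by
    have e2 : ⁅x, z⁆ = (x * z * x⁻¹) * z⁻¹ := by
      simp only [commutatorElement_def]
    rw [e2]
    refine hall_b h _ _ ?_ ?_
    · rw [conj_pow, hxy]; simp
    · rw [inv_pow, hxy, inv_one]
  have hexp := der_exp (q := q) K x z rfl (fun a _ b _ => hall_b h a b) hc1
  obtain ⟨l, hl, hle⟩ := h.reg x z
  rw [hyz, hle, hxy, prod_one l q (fun d hd => hexp d (hl d hd))]
  simp

end base

end Pool.Agent.Helper29.LR
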